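import Mathlib
import Pool.Agent.H36.SebC

namespace Pool.Agent.Results.MP_5ab447_lc.Bound

open Pool.Agent.H36.Seb

/-- A tournament on the teams `Fin n`: a complete oriented graph. -/
structure Tour (n : ℕ) where
  beats : Fin n → Fin n → Prop
  irrefl : ∀ x, ¬ beats x x
  total : ∀ x y, x ≠ y → (beats x y ↔ ¬ beats y x)

/-- Leaves of the complete `d`-ary tree of height `h`. -/
def Leaf (d : ℕ) : ℕ → Type
  | 0 => Unit
  | h+1 => Fin d × Leaf d h

/-- Markings of the inner nodes of the complete `d`-ary tree of height `h`: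
the mark of the root and the markings of the `d` subtrees. -/
def Mark (d : ℕ) : ℕ → Type
  | 0 => Unit
  | h+1 => Fin d × (Fin d → Mark d h)

open Classical in
/-- Label of an inner node with children labels `lab` and mark `m`. -/
noncomputable def node {n d : ℕ} (T : Tour n) (lab : Fin d → Fin n) (m : Fin d) : Fin n :=
  if hx : ∃ i, ∀ j, lab j ≠ lab i → T.beats (lab i) (lab j) then lab hx.choose else lab m

/-- Label of the root. -/
noncomputable def winner {n d : ℕ} (T : Tour n) :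
    (h : ℕ) → (Leaf d h → Fin n) → Mark d h → Fin n
  | 0, l, _ => l ()
  | h+1, l, mk => node T (fun i => winner T h (fun p => l (i, p)) (mk.2 i)) mk.1

/-- Winning probability of `x` under RdSEB: uniform placement, uniform marks. -/
noncomputable def r (d h : ℕ) (T : Tour (d ^ h)) (x : Fin (d ^ h)) : ℝ :=
  (Nat.card {z : (Leaf d h ≃ Fin (d ^ h)) × Mark d h // winner T h z.1 z.2 = x} : ℝ) /
    (Nat.card ((Leaf d h ≃ Fin (d ^ h)) × Mark d h) : ℝ)

noncomputable def rS (d h : ℕ) (T : Tour (d ^ h)) (S : Finset (Fin (d ^ h))) : ℝ :=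
  ∑ x ∈ S, r d h T x

def Adj {n : ℕ} (S : Finset (Fin n)) (T T' : Tour n) : Prop :=
  ∀ x y, ¬ (x ∈ S ∧ y ∈ S) → (T.beats x y ↔ T'.beats x y)

noncomputable def alpha (d k : ℕ) : ℝ :=
  sSup {a | ∃ h, 1 ≤ h ∧ ∃ (T T' : Tour (d ^ h)) (S : Finset (Fin (d ^ h))),
    S.card ≤ k ∧ Adj S T T' ∧ a = rS d h T' S - rS d h T S}

/-! ### generalities -/

instance finLeaf (d : ℕ) : ∀ h, Finite (Leaf d h)
  | 0 => inferInstanceAs (Finite Unit)
  | h+1 => by have := finLeaf d h; exact inferInstanceAs (Finite (Fin d × Leaf d h))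

instance finMark (d : ℕ) : ∀ h, Finite (Mark d h)
  | 0 => inferInstanceAs (Finite Unit)
  | h+1 => by have := finMark d h; exact inferInstanceAs (Finite (Fin d × (Fin d → Mark d h)))

theorem cardS {Ω : Type} [Fintype Ω] {n : ℕ} (w : Ω → Fin n) (S : Finset (Fin n)) :
    ∑ x ∈ S, (Nat.card {z // w z = x} : ℝ) / (Nat.card Ω : ℝ) =
      ((∑ z, if w z ∈ S then 1 else 0 : ℕ) : ℝ) / (Fintype.card Ω : ℝ) := by
  classical
  rw [← Finset.sum_div, Nat.card_eq_fintype_card (α := Ω)]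
  congr 1
  rw [← Nat.cast_sum]
  congr 1
  simp only [Nat.card_eq_fintype_card, Fintype.card_subtype, Finset.card_filter]
  rw [Finset.sum_comm]
  refine Finset.sum_congr rfl fun z _ => ?_
  simp

theorem rS_nonneg (d h : ℕ) (T : Tour (d ^ h)) (S : Finset (Fin (d ^ h))) : 0 ≤ rS d h T S :=
  Finset.sum_nonneg fun _ _ => div_nonneg (Nat.cast_nonneg _) (Nat.cast_nonneg _)

theorem rS_le (d h : ℕ) (T : Tour (d ^ h)) (S : Finset (Fin (d ^ h))) : rS d h T S ≤ 1 := by
  classical
  have : Fintype ((Leaf d h ≃ Fin (d ^ h)) × Mark d h) := Fintype.ofFinite _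
  unfold rS r
  rw [cardS (fun z : (Leaf d h ≃ Fin (d ^ h)) × Mark d h => winner T h z.1 z.2) S]
  refine div_le_one_of_le₀ ?_ (Nat.cast_nonneg _)
  rw [Nat.cast_le, ← Finset.card_univ, Finset.card_eq_sum_ones]
  exact Finset.sum_le_sum fun z _ => by split_ifs <;> simp

theorem node_mem {n d : ℕ} (T : Tour n) (lab : Fin d → Fin n) (m : Fin d) :
    ∃ i, node T lab m = lab i := by
  unfold node
  split_ifs
  · exact ⟨_, rfl⟩
  · exact ⟨_, rfl⟩

theorem node_cw {n d : ℕ} (T : Tour n) (lab : Fin d → Fin n) (m : Fin d) (i : Fin d)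
    (hi : ∀ j, lab j ≠ lab i → T.beats (lab i) (lab j)) : node T lab m = lab i := by
  have hx : ∃ i, ∀ j, lab j ≠ lab i → T.beats (lab i) (lab j) := ⟨i, hi⟩
  unfold node
  rw [dif_pos hx]
  by_contra hne
  have h1 := hi _ hne
  have h2 := hx.choose_spec i (Ne.symm hne)
  exact (T.total _ _ hne).1 h2 h1

theorem winner_cw {n d : ℕ} (T : Tour n) (c : Fin n) (hc : ∀ y, y ≠ c → T.beats c y) :
    ∀ (h : ℕ) (l : Leaf d h → Fin n) (mk : Mark d h), (∃ p, l p = c) → winner T h l mk = c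
  | 0, l, _, ⟨_, hp⟩ => hp
  | h+1, l, mk, ⟨p, hp⟩ => by
    have h1 := winner_cw T c hc h (fun q => l (p.1, q)) (mk.2 p.1) ⟨p.2, hp⟩
    have := node_cw T (fun i => winner T h (fun q => l (i, q)) (mk.2 i)) mk.1 p.1 (by
      intro j hj
      rw [h1] at hj ⊢
      exact hc _ hj)
    exact this.trans h1

theorem rS_cw (d h : ℕ) (T : Tour (d ^ h)) (S : Finset (Fin (d ^ h))) (c : Fin (d ^ h))
    (hc : ∀ y, y ≠ c → T.beats c y) (hS : c ∈ S)
    (hne : Nonempty ((Leaf d h ≃ Fin (d ^ h)) × Mark d h)) : rS d h T S = 1 := by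
  classical
  have : Fintype ((Leaf d h ≃ Fin (d ^ h)) × Mark d h) := Fintype.ofFinite _
  unfold rS r
  rw [cardS (fun z : (Leaf d h ≃ Fin (d ^ h)) × Mark d h => winner T h z.1 z.2) S]
  have : ∀ z : (Leaf d h ≃ Fin (d ^ h)) × Mark d h, winner T h z.1 z.2 ∈ S := fun z => by
    rw [winner_cw T c hc h z.1 z.2 ⟨z.1.symm c, by simp⟩]; exact hS
  simp only [this, if_true]
  rw [← Finset.card_eq_sum_ones, Finset.card_univ]
  exact div_self (by exact_mod_cast Fintype.card_ne_zero)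

/-! ### the tournaments -/

def mkT (n : ℕ) (Fl : ℕ → ℕ → Bool) : Tour n where
  beats x y := bt Fl x y = true
  irrefl x := by simp [bt]
  total x y hxy := by
    have : (x : ℕ) ≠ y := fun h => hxy (Fin.ext h)
    unfold bt
    rcases lt_or_gt_of_ne this with h | h
    · simp [h, not_lt.2 h.le]
    · simp [h, not_lt.2 h.le]

theorem bt_min {m : ℕ} {Fl : ℕ → ℕ → Bool} (hF : ∀ x y, m ≤ y → Fl x y = false) {x y : ℕ}
    (h : min x m ≠ min y m) : bt Fl x y = bt Fl (min x m) (min y m) := by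
  unfold bt
  rcases lt_or_ge x m with hx | hx <;> rcases lt_or_ge y m with hy | hy
  · rw [min_eq_left hx.le, min_eq_left hy.le]
  · rw [min_eq_left hx.le, min_eq_right hy]
    rw [if_pos (by omega), if_pos hx, hF _ _ hy, hF _ _ le_rfl]
  · rw [min_eq_left hy.le, min_eq_right hx]
    rw [if_neg (by omega), if_pos (by omega), if_neg (by omega), if_pos hy, hF _ _ hx,
      hF _ _ le_rfl]
  · exact absurd (by rw [min_eq_right hx, min_eq_right hy]) h

theorem lsum (n : ℕ) (f : ℕ → ℕ) :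
    ((List.range n).map f).sum = ∑ i ∈ Finset.range n, f i := by
  induction n with
  | zero => simp
  | succ n ih => simp [List.range_succ, Finset.sum_range_succ, ih]

theorem lprod (n : ℕ) (f : ℕ → ℕ) :
    ((List.range n).map f).prod = ∏ i ∈ Finset.range n, f i := by
  induction n with
  | zero => simp
  | succ n ih => simp [List.range_succ, Finset.prod_range_succ, ih]

theorem node_sum {n d m : ℕ} {Fl : ℕ → ℕ → Bool} (hF : ∀ x y, m ≤ y → Fl x y = false)
    (lab : Fin d → Fin n) (κ : ℕ → ℕ)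
    (hκ : ∀ s, κ s = ∑ i, if min (lab i : ℕ) m = s then 1 else 0) (φ : ℕ → ℕ) :
    ∑ mk, φ (min (node (mkT n Fl) lab mk : ℕ) m) = ex d m (bt Fl) κ φ := by
  have hz : ∀ s, κ s ≠ 0 ↔ ∃ i, min (lab i : ℕ) m = s := by
    intro s
    rw [hκ, Ne, Finset.sum_eq_zero_iff]
    simp
  unfold ex
  rcases hcw : cw m (bt Fl) κ with _ | t
  · have hno : ¬ ∃ i, ∀ j, lab j ≠ lab i → (mkT n Fl).beats (lab i) (lab j) := by
      rintro ⟨i, hi⟩
      unfold cw at hcw
      rw [List.find?_eq_none] at hcw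
      apply hcw (min (lab i : ℕ) m) (by simp)
      simp only [Bool.and_eq_true, bne_iff_ne, List.all_eq_true, Bool.or_eq_true, beq_iff_eq]
      refine ⟨(hz _).2 ⟨i, rfl⟩, fun u _ => ?_⟩
      by_cases h0 : κ u = 0
      · exact Or.inl (Or.inl h0)
      obtain ⟨j, hj⟩ := (hz u).1 h0
      by_cases h1 : u = min (lab i : ℕ) m
      · exact Or.inl (Or.inr h1)
      right
      have := hi j (fun h => h1 (by rw [← hj, h]))
      rw [← hj, ← bt_min hF (by rw [hj]; exact Ne.symm h1)]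
      exact this
    have : ∀ mk, node (mkT n Fl) lab mk = lab mk := fun mk => by
      unfold node; rw [dif_neg hno]
    simp only [this]
    rw [lsum]
    have e : ∀ s, (if κ s = 0 then 0 else κ s * φ s) =
        ∑ i, if min (lab i : ℕ) m = s then φ s else 0 := fun s => by
      have : (if κ s = 0 then 0 else κ s * φ s) = κ s * φ s := by
        split_ifs with h
        · simp [h]
        · rfl
      rw [this, hκ, Finset.sum_mul]
      simp
    simp only [e]
    rw [Finset.sum_comm]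
    refine Finset.sum_congr rfl fun i _ => ?_
    rw [Finset.sum_ite_eq, if_pos (by simp)]
  · have h1 := List.find?_some hcw
    simp only [Bool.and_eq_true, bne_iff_ne, List.all_eq_true, Bool.or_eq_true, beq_iff_eq] at h1
    obtain ⟨i, hi⟩ := (hz _).1 h1.1
    have key : ∀ j, min (lab j : ℕ) m = t ∨ bt Fl t (min (lab j : ℕ) m) = true := fun j => by
      rcases h1.2 (min (lab j : ℕ) m) (by simp) with (h | h) | h
      · exact absurd h ((hz _).2 ⟨j, rfl⟩)
      · exact Or.inl h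
      · exact Or.inr h
    have : ∀ mk, min (node (mkT n Fl) lab mk : ℕ) m = t := fun mk => by
      by_cases htm : t < m
      · rw [node_cw (mkT n Fl) lab mk i, hi]
        intro j hj
        have hne : min (lab j : ℕ) m ≠ t := fun h => hj (Fin.ext (by omega))
        show bt Fl _ _ = true
        rw [bt_min hF (by rw [hi]; exact hne.symm), hi]
        exact (key j).resolve_left hne
      · obtain ⟨j, hj⟩ := node_mem (mkT n Fl) lab mk
        rw [hj]
        rcases key j with h | h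
        · exact h
        · unfold bt at h
          rw [if_neg (by omega)] at h
          split_ifs at h
          rw [hF _ _ (by omega)] at h
          exact absurd h (by simp)
    simp [this]

theorem nest_sum {n d m : ℕ} {Fl : ℕ → ℕ → Bool} (hF : ∀ x y, m ≤ y → Fl x y = false) :
    ∀ (k : ℕ) (L : Fin k → Fin d → Fin n) (κ : Fin k → ℕ → ℕ)
      (_ : ∀ i s, κ i s = ∑ j, if min (L i j : ℕ) m = s then 1 else 0) (acc : ℕ → ℕ),
      ∑ μ : Fin k → Fin d, ex d m (bt Fl)
        (fun s => acc s + ∑ i, if min (node (mkT n Fl) (L i) (μ i) : ℕ) m = s then 1 else 0)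
        (fun t => if t < 3 then 1 else 0) = nest d m (bt Fl) (List.ofFn κ) acc
  | 0, L, κ, _, acc => by simp [nest]
  | k+1, L, κ, hκ, acc => by
    rw [List.ofFn_succ, nest, ← node_sum hF (L 0) (κ 0) (hκ 0),
      ← (Fin.consEquiv fun _ : Fin (k+1) => Fin d).sum_comp, Fintype.sum_prod_type]
    refine Finset.sum_congr rfl fun a _ => ?_
    rw [← nest_sum hF k (fun i => L i.succ) (fun i => κ i.succ) (fun i => hκ i.succ)]
    refine Finset.sum_congr rfl fun μ _ => ?_
    congr 1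
    funext s
    simp [Fin.sum_univ_succ, add_assoc, Fin.consEquiv]

theorem count_ofFn : ∀ (m : ℕ) (f : Fin m → ℕ) (i : ℕ),
    (List.ofFn f).count i = ∑ a, if f a = i then 1 else 0
  | 0, f, i => by simp
  | m+1, f, i => by
    rw [List.ofFn_succ, List.count_cons, count_ofFn m, Fin.sum_univ_succ, add_comm]
    simp

theorem sumL_eq (d : ℕ) : ∀ (m : ℕ) (Φ : List ℕ → ℕ),
    ∑ g : Fin m → Fin d, Φ (List.ofFn fun a => (g a : ℕ)) = sumL d m Φ
  | 0, Φ => by simp [sumL]
  | m+1, Φ => by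
    rw [sumL, lsum, Finset.sum_range,
      ← (Fin.consEquiv fun _ : Fin (m+1) => Fin d).sum_comp, Fintype.sum_prod_type]
    refine Finset.sum_congr rfl fun a _ => ?_
    rw [← sumL_eq d m]
    refine Finset.sum_congr rfl fun g _ => ?_
    simp [List.ofFn_succ, Fin.consEquiv]

/-- embeddings with prescribed first coordinates -/
def fibEquiv {d m : ℕ} (g : Fin m → Fin d) :
    {ι : Fin m ↪ Fin d × Fin d // (fun a => (ι a).1) = g} ≃
      ∀ i : Fin d, ({a // g a = i} ↪ Fin d) where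
  toFun ι i := ⟨fun a => (ι.1 a.1).2, fun a b hab => Subtype.ext (ι.1.injective
    (Prod.ext ((congrFun ι.2 a.1).trans (a.2.trans (b.2.symm.trans (congrFun ι.2 b.1).symm))) hab))⟩
  invFun e := ⟨⟨fun a => (g a, e (g a) ⟨a, rfl⟩), fun a b hab => by
    have h1 : g a = g b := congrArg Prod.fst hab
    have h2 : e (g a) ⟨a, rfl⟩ = e (g b) ⟨b, rfl⟩ := congrArg Prod.snd hab
    have h3 : ∀ i (ha : g a = i), e (g a) ⟨a, rfl⟩ = e i ⟨a, ha⟩ := fun i ha => by subst ha; rfl
    rw [h3 _ h1] at h2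
    exact congrArg Subtype.val ((e (g b)).injective h2)⟩, rfl⟩
  left_inv ι := by
    apply Subtype.ext
    ext a
    · exact congrArg Fin.val (congrFun ι.2 a).symm
    · rfl
  right_inv e := by
    funext i
    ext ⟨a, ha⟩
    subst ha
    rfl

theorem emb_sum (d m : ℕ) (Φ : List ℕ → ℕ) :
    ∑ ι : Fin m ↪ Fin d × Fin d, Φ (List.ofFn fun a => ((ι a).1 : ℕ)) =
      sumL d m fun l => wt d l * Φ l := by
  classical
  rw [← sumL_eq, ← Finset.sum_fiberwise Finset.univ
    (fun ι : Fin m ↪ Fin d × Fin d => fun a => (ι a).1)]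
  refine Finset.sum_congr rfl fun g _ => ?_
  rw [Finset.sum_congr rfl (g := fun _ => Φ (List.ofFn fun a => (g a : ℕ))) (fun ι hι => by
    rw [← (Finset.mem_filter.1 hι).2]), Finset.sum_const, smul_eq_mul]
  congr 1
  rw [← Fintype.card_subtype, Fintype.card_congr (fibEquiv g), Fintype.card_pi, wt, lprod,
    Finset.prod_range]
  refine Finset.prod_congr rfl fun i _ => ?_
  rw [Fintype.card_embedding_eq, Fintype.card_fin, count_ofFn, Fintype.card_subtype,
    Finset.card_filter]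
  simp [Fin.ext_iff]

def iota {P : Type} {n m : ℕ} (hm : m ≤ n) (σ : P ≃ Fin n) : Fin m ↪ P :=
  ⟨fun a => σ.symm (Fin.castLE hm a), fun _ _ h => Fin.castLE_injective hm (σ.symm.injective h)⟩

theorem avg {P : Type} [Fintype P] [DecidableEq P] {n m : ℕ} (hm : m ≤ n) :
    ∃ c : ℕ, ∀ Φ : (Fin m ↪ P) → ℕ, ∑ σ : P ≃ Fin n, Φ (iota hm σ) = c * ∑ ι, Φ ι := by
  classical
  have hc : ∀ ι ι' : Fin m ↪ P, (Finset.univ.filter fun σ : P ≃ Fin n => iota hm σ = ι).card =
      (Finset.univ.filter fun σ : P ≃ Fin n => iota hm σ = ι').card := by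
    intro ι ι'
    obtain ⟨π, hπ⟩ := Equiv.Perm.exists_extending_pair ι ι' ι.injective ι'.injective
    refine Finset.card_equiv (Equiv.equivCongr π (Equiv.refl _)) fun σ => ?_
    simp only [Finset.mem_filter, Finset.mem_univ, true_and, DFunLike.ext_iff]
    refine forall_congr' fun a => ?_
    rw [← hπ a]
    exact π.injective.eq_iff.symm
  rcases isEmpty_or_nonempty (Fin m ↪ P) with he | ⟨⟨ι0⟩⟩
  · refine ⟨0, fun Φ => ?_⟩
    rw [zero_mul]
    exact Finset.sum_eq_zero fun σ _ => he.elim (iota hm σ)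
  refine ⟨(Finset.univ.filter fun σ : P ≃ Fin n => iota hm σ = ι0).card, fun Φ => ?_⟩
  rw [← Finset.sum_fiberwise Finset.univ (fun σ : P ≃ Fin n => iota hm σ), Finset.mul_sum]
  refine Finset.sum_congr rfl fun ι _ => ?_
  rw [Finset.sum_congr rfl (g := fun _ => Φ ι) (fun σ hσ => by
    rw [(Finset.mem_filter.1 hσ).2]), Finset.sum_const, smul_eq_mul, hc ι ι0]

theorem kap_eq {d n m : ℕ} (hm : m ≤ n) (σ : Fin d × Fin d ≃ Fin n) (i : Fin d) (s : ℕ) :
    kap d m (List.ofFn fun a => ((iota hm σ a).1 : ℕ)) i s =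
      ∑ j, if min (σ (i, j) : ℕ) m = s then 1 else 0 := by
  have h1 : ∀ a : Fin m, (∑ j, if (σ (i, j) : ℕ) = a then 1 else 0 : ℕ) =
      if ((iota hm σ a).1 : ℕ) = i then 1 else 0 := fun a => by
    have : ∀ j, (σ (i, j) : ℕ) = a ↔ (iota hm σ a).1 = i ∧ (iota hm σ a).2 = j := fun j => by
      rw [← Prod.ext_iff (y := (i, j))]
      show _ ↔ σ.symm _ = _
      rw [Equiv.symm_apply_eq, Fin.ext_iff, eq_comm]
      rfl
    simp only [this, Fin.val_inj]
    by_cases h : (iota hm σ a).1 = i <;> simp [h]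
  unfold kap
  by_cases hs : s < m
  · rw [if_pos hs]
    have : ∀ j, min (σ (i, j) : ℕ) m = s ↔ (σ (i, j) : ℕ) = (⟨s, hs⟩ : Fin m) := fun j => by
      show _ ↔ _ = s
      omega
    rw [Finset.sum_congr rfl fun j _ => if_congr (this j) rfl rfl, h1]
    simp [List.getD_eq_getElem?_getD, hs]
  rw [if_neg hs]
  by_cases hs2 : s = m
  · rw [if_pos hs2, count_ofFn]
    simp only [← h1]
    rw [Finset.sum_comm]
    have : ∑ j : Fin d, ((∑ a : Fin m, if (σ (i, j) : ℕ) = a then 1 else 0) +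
        if min (σ (i, j) : ℕ) m = s then 1 else 0) = ∑ _j : Fin d, 1 := by
      refine Finset.sum_congr rfl fun j _ => ?_
      by_cases h : (σ (i, j) : ℕ) < m
      · rw [if_neg (by omega), Finset.sum_eq_single (⟨_, h⟩ : Fin m)]
        · simp
        · intro b _ hb
          exact if_neg fun h' => hb (Fin.ext h'.symm)
        · simp
      · rw [if_pos (by omega), Finset.sum_eq_zero]
        intro b _
        exact if_neg (by have := b.2; omega)
    rw [Finset.sum_add_distrib] at this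
    simp only [Finset.sum_const, Finset.card_univ, Fintype.card_fin, smul_eq_mul, mul_one] at this
    omega
  · rw [if_neg hs2, Finset.sum_eq_zero]
    intro j _
    exact if_neg (by omega)

def eL (d : ℕ) : Fin d × Fin d ≃ Leaf d 2 where
  toFun p := (p.1, p.2, ())
  invFun p := (p.1, p.2.1)
  left_inv _ := rfl
  right_inv _ := rfl

def eM (d : ℕ) : (Fin d → Fin d) × Fin d ≃ Mark d 2 where
  toFun z := (z.2, fun i => (z.1 i, fun _ => ()))
  invFun mk := (fun i => (mk.2 i).1, mk.1)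
  left_inv _ := rfl
  right_inv _ := rfl

def S3 (n : ℕ) : Finset (Fin n) := Finset.univ.filter fun x => (x : ℕ) < 3

theorem S3_card (n : ℕ) : (S3 n).card ≤ 3 := by
  have := Finset.card_le_card_of_injOn (s := S3 n) (t := Finset.range 3) (fun x => (x : ℕ))
    (fun x hx => by simpa [S3] using hx) (fun x _ y _ h => Fin.ext h)
  simpa using this

theorem two {d m : ℕ} {Fl : ℕ → ℕ → Bool} (hF : ∀ x y, m ≤ y → Fl x y = false) (h3 : 3 ≤ m)
    (hm : m ≤ d ^ 2)
    (ht : 420 * tot d m (bt Fl) ≤ 193 * ((d ^ 2).descFactorial m * (d * d ^ d))) :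
    rS d 2 (mkT _ Fl) (S3 _) ≤ 193 / 420 := by
  classical
  have : Fintype ((Leaf d 2 ≃ Fin (d ^ 2)) × Mark d 2) := Fintype.ofFinite _
  unfold rS r
  rw [cardS (fun z : (Leaf d 2 ≃ Fin (d ^ 2)) × Mark d 2 => winner (mkT _ Fl) 2 z.1 z.2) (S3 _)]
  let E : (Fin d × Fin d ≃ Fin (d ^ 2)) × ((Fin d → Fin d) × Fin d) ≃
      (Leaf d 2 ≃ Fin (d ^ 2)) × Mark d 2 :=
    Equiv.prodCongr (Equiv.equivCongr (eL d) (Equiv.refl _)) (eM d)
  obtain ⟨c, hc⟩ := avg (P := Fin d × Fin d) hm
  have h1 : (∑ z : (Leaf d 2 ≃ Fin (d ^ 2)) × Mark d 2,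
      if winner (mkT _ Fl) 2 z.1 z.2 ∈ S3 _ then 1 else 0 : ℕ) = c * tot d m (bt Fl) := by
    rw [← E.sum_comp, Fintype.sum_prod_type, tot, ← emb_sum, ← hc]
    refine Finset.sum_congr rfl fun σ _ => ?_
    have hl : (List.range d).map (kap d m (List.ofFn fun a => ((iota hm σ a).1 : ℕ))) =
        List.ofFn fun i : Fin d => kap d m (List.ofFn fun a => ((iota hm σ a).1 : ℕ)) i := by
      apply List.ext_getElem <;> simp
    rw [hl, ← nest_sum hF d (fun i j => σ (i, j)) _ (fun i s => kap_eq hm σ i s),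
      Fintype.sum_prod_type]
    refine Finset.sum_congr rfl fun μ _ => ?_
    rw [← node_sum hF (fun i => node (mkT _ Fl) (fun j => σ (i, j)) (μ i)) _
      (fun s => zero_add _)]
    refine Finset.sum_congr rfl fun mk _ => ?_
    have : winner (mkT _ Fl) 2 (E (σ, μ, mk)).1 (E (σ, μ, mk)).2 =
        node (mkT _ Fl) (fun i => node (mkT _ Fl) (fun j => σ (i, j)) (μ i)) mk := rfl
    rw [this]
    refine if_congr ?_ rfl rfl
    simp only [S3, Finset.mem_filter, Finset.mem_univ, true_and]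
    omega
  have h2 : Fintype.card ((Leaf d 2 ≃ Fin (d ^ 2)) × Mark d 2) =
      c * ((d ^ 2).descFactorial m * (d * d ^ d)) := by
    have := hc fun _ => 1
    simp only [Finset.sum_const, Finset.card_univ, smul_eq_mul, mul_one,
      Fintype.card_embedding_eq, Fintype.card_prod, Fintype.card_fin] at this
    rw [← Fintype.card_congr E, Fintype.card_prod, this]
    simp only [Fintype.card_prod, Fintype.card_fin, Fintype.card_fun]
    rw [sq]; ring
  rw [h1, h2]
  refine div_le_of_le_mul₀ (Nat.cast_nonneg _) (by norm_num) ?_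
  have h4 : ((420 * (c * tot d m (bt Fl)) : ℕ) : ℝ) ≤
      ((193 * (c * ((d ^ 2).descFactorial m * (d * d ^ d))) : ℕ) : ℝ) := by
    rw [Nat.cast_le]
    have := Nat.mul_le_mul_left c ht
    nlinarith
  rw [Nat.cast_mul 420, Nat.cast_mul 193] at h4
  simp only [Nat.cast_ofNat] at h4
  linarith

def F3 (x y : ℕ) : Bool := x == 0 && y == 2

def e1 (d : ℕ) : Leaf d 1 ≃ Mark d 1 where
  toFun p := (p.1, fun _ => ())
  invFun mk := (mk.1, ())
  left_inv _ := rfl
  right_inv _ := rfl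

theorem one {d : ℕ} (hd : 7 ≤ d) : rS d 1 (mkT _ F3) (S3 _) ≤ 193 / 420 := by
  classical
  have : Fintype (Leaf d 1 ≃ Fin (d ^ 1)) := Fintype.ofFinite _
  have : Fintype (Mark d 1) := Fintype.ofFinite _
  unfold rS r
  rw [cardS (fun z : (Leaf d 1 ≃ Fin (d ^ 1)) × Mark d 1 => winner (mkT _ F3) 1 z.1 z.2) (S3 _)]
  have hd1 : 7 ≤ d ^ 1 := by simpa using hd
  have h1 : ∀ σ : Leaf d 1 ≃ Fin (d ^ 1), 7 * (∑ mk : Mark d 1,
      if winner (mkT _ F3) 1 σ mk ∈ S3 _ then 1 else 0 : ℕ) ≤ 3 * Fintype.card (Mark d 1) := by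
    intro σ
    have hno : ¬ ∃ i : Fin d, ∀ j : Fin d, σ (j, ()) ≠ σ (i, ()) →
        (mkT _ F3).beats (σ (i, ())) (σ (j, ())) := by
      rintro ⟨i, hi⟩
      have h : ∀ y : Fin (d ^ 1), y ≠ σ (i, ()) → bt F3 (σ (i, ())) y = true := fun y hy => by
        have e : σ ((σ.symm y).1, ()) = y := σ.apply_symm_apply y
        have := hi (σ.symm y).1 (by rw [e]; exact hy)
        rw [e] at this
        exact this
      generalize σ (i, ()) = x at h
      by_cases h0 : (x : ℕ) = 0
      · have := h ⟨2, by omega⟩ (fun e => by rw [← e] at h0; simp at h0)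
        simp [h0, bt, F3] at this
      by_cases h2 : (x : ℕ) = 2
      · have := h ⟨1, by omega⟩ (fun e => by rw [← e] at h2; simp at h2)
        simp [h2, bt, F3] at this
      · have := h ⟨0, by omega⟩ (fun e => by rw [← e] at h0; simp at h0)
        simp [h2, bt, F3] at this
    have hw : ∀ mk : Mark d 1, winner (mkT _ F3) 1 σ mk = ((e1 d).symm.trans σ) mk := fun mk => by
      show node (mkT _ F3) (fun i => σ (i, ())) mk.1 = σ (mk.1, ())
      unfold node
      rw [dif_neg hno]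
    simp only [hw]
    rw [((e1 d).symm.trans σ).sum_comp (fun x => if x ∈ S3 _ then 1 else 0),
      Fintype.card_congr ((e1 d).symm.trans σ), Fintype.card_fin]
    have := S3_card (d ^ 1)
    simp only [Finset.sum_ite_mem, Finset.univ_inter, Finset.sum_const, smul_eq_mul, mul_one]
    omega
  refine div_le_of_le_mul₀ (Nat.cast_nonneg _) (by norm_num) ?_
  have h2 : 7 * (∑ z : (Leaf d 1 ≃ Fin (d ^ 1)) × Mark d 1,
      if winner (mkT _ F3) 1 z.1 z.2 ∈ S3 _ then 1 else 0 : ℕ) ≤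
      3 * Fintype.card ((Leaf d 1 ≃ Fin (d ^ 1)) × Mark d 1) := by
    rw [Fintype.sum_prod_type, Finset.mul_sum, Fintype.card_prod]
    refine (Finset.sum_le_sum fun σ _ => h1 σ).trans ?_
    simp only [Finset.sum_const, Finset.card_univ, smul_eq_mul]
    exact le_of_eq (by ring)
  have h4 := (Nat.cast_le (α := ℝ)).2 h2
  rw [Nat.cast_mul 7, Nat.cast_mul 3] at h4
  simp only [Nat.cast_ofNat] at h4
  have h5 : (0 : ℝ) ≤ Fintype.card ((Leaf d 1 ≃ Fin (d ^ 1)) × Mark d 1) := Nat.cast_nonneg _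
  linarith

theorem card_leaf (d : ℕ) : ∀ h, Nat.card (Leaf d h) = d ^ h
  | 0 => by show Nat.card Unit = _; simp
  | h+1 => by
    show Nat.card (Fin d × Leaf d h) = _
    rw [Nat.card_prod, card_leaf d h, pow_succ']
    simp

theorem ne_mark {d : ℕ} (hd : 0 < d) : ∀ h, Nonempty (Mark d h)
  | 0 => ⟨()⟩
  | h+1 => (ne_mark hd h).elim fun x => ⟨(⟨0, hd⟩, fun _ => x)⟩

theorem fin {d k h : ℕ} (hk : 3 ≤ k) (hd : 0 < d) (hh : 1 ≤ h) (Fl : ℕ → ℕ → Bool)
    (h0 : ∀ y, 3 ≤ y → Fl 0 y = false) (hr : rS d h (mkT _ Fl) (S3 _) ≤ 193 / 420) :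
    (227 / 420 : ℝ) ≤ alpha d k := by
  have hp : 0 < d ^ h := pow_pos hd h
  have h1 : rS d h (mkT _ fun x y => decide (3 ≤ x ∨ 3 ≤ y) && Fl x y) (S3 _) = 1 := by
    refine rS_cw d h _ _ ⟨0, hp⟩ (fun y hy => ?_) (by simp [S3])
      ⟨(Finite.equivFinOfCardEq (card_leaf d h), (ne_mark hd h).some)⟩
    have hy' : 0 < (y : ℕ) := Nat.pos_of_ne_zero fun e => hy (Fin.ext e)
    show bt _ 0 y = true
    unfold bt
    rw [if_pos hy']
    by_cases h3 : 3 ≤ (y : ℕ)
    · simp [h0 _ h3]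
    · simp [h3]
  refine le_trans ?_ (le_csSup ⟨1, ?_⟩ ⟨h, hh, mkT _ Fl,
    mkT _ fun x y => decide (3 ≤ x ∨ 3 ≤ y) && Fl x y, S3 _, (S3_card _).trans hk, ?_, rfl⟩)
  · rw [h1]; linarith
  · rintro a ⟨h', _, T, T', S, _, _, rfl⟩
    have := rS_le d h' T' S
    have := rS_nonneg d h' T S
    linarith
  · intro x y hxy
    have h3 : 3 ≤ (x : ℕ) ∨ 3 ≤ (y : ℕ) := by
      simp only [S3, Finset.mem_filter, Finset.mem_univ, true_and] at hxy
      omega
    show bt _ _ _ = true ↔ bt _ _ _ = true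
    unfold bt
    simp [h3, h3.symm]

theorem result (k d : ℕ) (hk : 3 ≤ k) (hkd : k ≤ d) : (227 / 420 : ℝ) ≤ alpha d k := by
  have f5 : ∀ x y, 5 ≤ y → F5 x y = false := fun x y h => by
    simp [F5]; omega
  have f4 : ∀ x y, 4 ≤ y → F4 x y = false := fun x y h => by
    simp [F4]; omega
  have g5 : ∀ y, 3 ≤ y → F5 0 y = false := fun y h => by simp [F5]; omega
  have g4 : ∀ y, 3 ≤ y → F4 0 y = false := fun y h => by simp [F4]; omega
  have g3 : ∀ y, 3 ≤ y → F3 0 y = false := fun y h => by simp [F3]; omega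
  have : d = 3 ∨ d = 4 ∨ d = 5 ∨ d = 6 ∨ 7 ≤ d := by omega
  rcases this with rfl | rfl | rfl | rfl | h
  · exact fin hk (by norm_num) (by norm_num) F5 g5 (two f5 (by norm_num) (by norm_num) t3)
  · exact fin hk (by norm_num) (by norm_num) F5 g5 (two f5 (by norm_num) (by norm_num) t4)
  · exact fin hk (by norm_num) (by norm_num) F4 g4 (two f4 (by norm_num) (by norm_num) t5)
  · exact fin hk (by norm_num) (by norm_num) F4 g4 (two f4 (by norm_num) (by norm_num) t6)
  · exact fin hk (by omega) le_rfl F3 g3 (one h)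

end Pool.Agent.Results.MP_5ab447_lc.Bound
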